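import Pool.Agent.Helper5.Bidding.Main

set_option autoImplicit false

namespace Pool.Agent.Results.MP_14f067_co.InverseIsConjugate

open Pool.Agent.Helper5.Bidding

/-- Every position of discrete bidding play is determined: exactly one player has a bid that wins
against all bids of the opponent (recursively). -/
theorem outcome_determined (TB : ℕ) (G : Form) (p : ℕ) (hp : p ≤ TB) (s : Bool) :
    Form.RightWins TB G p s ↔ ¬ Form.LeftWins TB G p s :=
  Form.determined TB G p hp s

/-- For every total budget, if a game form `G` has an inverse `H`, then `H` equals the conjugate
of `G`. -/
theorem result : ∀ (TB : ℕ) (G H : Form),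
    Form.Eqv TB (Form.add G H) Form.zero → Form.Eqv TB H (Form.conj G) :=
  fun TB G H h => Form.main TB G H h

end Pool.Agent.Results.MP_14f067_co.InverseIsConjugate
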